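import Pool.Agent.Y560.TF.Stm

/-!
Project TF: basic facts on one-ended structures.
-/

set_option autoImplicit false

namespace Pool.Agent.Y768.TF

open Set
open Pool.Agent.H566P (R2 lt ac co)
open Pool.Agent.Y560.TG (orb Nm Sm)
open Pool.Agent.Y560.TF

theorem PA_even (Λ : ℕ → ℕ → Prop) (β : Ordinal.{0}) (Y : R2) (y k v : ℕ) :
    PA Λ β Y y (2 * k) v ↔ Q Y y k v := by
  unfold PA
  rw [if_pos (by omega), show 2 * k / 2 = k by omega]

theorem PA_odd (Λ : ℕ → ℕ → Prop) (β : Ordinal.{0}) (Y : R2) (y k v : ℕ) :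
    PA Λ β Y y (2 * k + 1) v ↔ Lr Λ β Y k y v := by
  unfold PA
  rw [if_neg (by omega), show (2 * k + 1) / 2 = k by omega]

theorem Lr_even (Λ : ℕ → ℕ → Prop) (β : Ordinal.{0}) (Y : R2) (j y z : ℕ) :
    Lr Λ β Y (2 * j) y z ↔ ¬ Bg β Y y z ∧ ∃ w, Bg β Y y w ∧ (∀ k, Q Y y k w ↔ Λ j k) ∧
      lt Y z w := by
  unfold Lr
  rw [show 2 * j / 2 = j by omega, show 2 * j % 2 = 0 by omega]
  simp

theorem Lr_odd (Λ : ℕ → ℕ → Prop) (β : Ordinal.{0}) (Y : R2) (j y z : ℕ) :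
    Lr Λ β Y (2 * j + 1) y z ↔ ¬ Bg β Y y z ∧ ∃ w, Bg β Y y w ∧ (∀ k, Q Y y k w ↔ Λ j k) ∧
      lt Y w z := by
  unfold Lr
  rw [show (2 * j + 1) / 2 = j by omega, show (2 * j + 1) % 2 = 1 by omega]
  simp

theorem t_OEB (hS : S_SUB) (hN : S_NSM) (hG : S_GEO) : S_OEB := by
  intro Γ _ g hg Y β hTR hβ hE
  have G := hG Γ g hg Y hTR
  obtain ⟨t, hT⟩ := id hTR
  have B : ∀ y z w, Bg β Y y w → (Bg β Y y z ↔ z ∈ Ob Y y w) := by
    intro y z w hw
    refine ⟨fun hz => hE.un y w z hw hz, fun hz => ?_⟩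
    have e := G.eqv _ _ _ hz
    refine ⟨fun ho => hw.1 ?_, ?_⟩
    · rw [← (G.out y w).1, ← e]
      exact (G.out y z).1.2 ho
    · rw [e]; exact hw.2
  have obeq : ∀ n y z z', ac Y n z z' → Ob Y y z' = Ob Y y z := fun n y z z' h =>
    G.eqv _ _ _ ((G.inv n y z z z' h).1 (G.self y z))
  have orbeq : ∀ n y z z', ac Y n z z' → (orb Y y z ↔ orb Y y z') := by
    intro n y z z' h
    rw [← (G.out y z).1, ← (G.out y z').1, obeq n y z z' h]
  have C : ∀ n y z z', ac Y n z z' → (Bg β Y y z ↔ Bg β Y y z') := by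
    intro n y z z' h
    unfold Bg
    rw [orbeq n y z z' h, obeq n y z z' h]
  have D : ∀ (Λ : ℕ → ℕ → Prop) y z w j, ¬ Bg β Y y z → Bg β Y y w → (∀ k, Q Y y k w ↔ Λ j k) →
      (lt Y z w ↔ Lr Λ β Y (2 * j) y z) ∧ (lt Y w z ↔ Lr Λ β Y (2 * j + 1) y z) := by
    intro Λ y z w j hz hw hs
    have hz' : z ∉ Ob Y y w := fun h => hz ((B y z w hw).2 h)
    have key : ∀ w1, Bg β Y y w1 → (∀ k, Q Y y k w1 ↔ Λ j k) →
        (lt Y w1 z ↔ lt Y w z) ∧ (lt Y z w1 ↔ lt Y z w) := fun w1 hw1 hs1 =>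
      (G.mod y w).2 w1 ((B y w1 w hw).1 hw1) w (G.self y w) (fun k => (hs1 k).trans (hs k).symm)
        z hz'
    rw [Lr_even, Lr_odd]
    refine ⟨⟨fun h => ⟨hz, w, hw, hs, h⟩, ?_⟩, ⟨fun h => ⟨hz, w, hw, hs, h⟩, ?_⟩⟩
    · rintro ⟨-, w1, hw1, hs1, h1⟩
      exact (key w1 hw1 hs1).2.1 h1
    · rintro ⟨-, w1, hw1, hs1, h1⟩
      exact (key w1 hw1 hs1).1.1 h1
  refine ⟨?_, B, C, D, ?_⟩
  · intro y z w hw
    by_cases hz : Bg β Y y z
    · exact Or.inl hz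
    right
    have hz' : z ∉ Ob Y y w := fun h => hz ((B y z w hw).2 h)
    refine ⟨?_, fun hs => hw.2 ?_⟩
    · rintro ⟨n, hn⟩
      exact hz' ((G.inv n y w z w hn).2 (G.self y w))
    · exact hS Γ g hg Y y w z univ β hTR hβ hw.1 hz' (subset_univ _)
        (((hN Y univ (Ob Y z w) z β hβ).1 (subset_univ _)).1 hs)
  · intro Λ y hcov
    refine ⟨?_, ?_⟩
    · intro n x z h
      show (¬ Bg β Y y x ∧ ¬ orb Y y x) ↔ (¬ Bg β Y y z ∧ ¬ orb Y y z)
      rw [C n y x z h, orbeq n y x z h]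
    · intro v hv v' hv' h u hu
      have hv1 : ¬ Bg β Y y v := hv.1
      have hv2 : ¬ orb Y y v := hv.2
      have hv1' : ¬ Bg β Y y v' := hv'.1
      have hv2' : ¬ orb Y y v' := hv'.2
      have hu' : orb Y y u ∨ Bg β Y y u := by
        by_contra hc
        push Not at hc
        exact hu ⟨hc.2, hc.1⟩
      have huv : u ≠ v := by
        rintro rfl; exact hu hv
      have huv' : u ≠ v' := by
        rintro rfl; exact hu hv'
      rcases hu' with ho | hb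
      · obtain ⟨k, hk⟩ := ho
        rw [hT.act] at hk
        subst hk
        have h0 := h (2 * (4 * k))
        have h1 := h (2 * (4 * k + 1))
        rw [PA_even, PA_even, Q0_iff hT, Q0_iff hT] at h0
        rw [PA_even, PA_even, Q1_iff hT, Q1_iff hT] at h1
        refine ⟨⟨fun h2 => ?_, fun h2 => ?_⟩, ⟨fun h2 => ?_, fun h2 => ?_⟩⟩
        · exact (h1.1 (Or.inr h2)).resolve_left (Ne.symm huv')
        · exact (h1.2 (Or.inr h2)).resolve_left (Ne.symm huv)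
        · exact (h0.1 (Or.inr h2)).resolve_left huv'
        · exact (h0.2 (Or.inr h2)).resolve_left huv
      · obtain ⟨j, hj⟩ := hcov u hb
        have h0 := h (2 * (2 * j) + 1)
        have h1 := h (2 * (2 * j + 1) + 1)
        rw [PA_odd, PA_odd] at h0 h1
        have d := D Λ y v u j hv1 hb hj
        have d' := D Λ y v' u j hv1' hb hj
        exact ⟨by rw [d.1, d'.1, h0], by rw [d.2, d'.2, h1]⟩

end Pool.Agent.Y768.TF
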